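import Mathlib
import Pool.Agent.H.MP_e6182f_al.A

set_option autoImplicit false

namespace Pool.Agent.Results.MP_e6182f_al.OneModule
open CategoryTheory Pool.Agent.H.MP_e6182f_al

/-- Q2: a ring `R`, one module `M` and a module `N` in `lim Add M` but not in `lim add M`. -/
theorem result : ∃ (R : Type) (_ : Ring R) (M N : ModuleCat.{0} R),
    (∃ F : ℕ ⥤ ModuleCat.{0} R,
      (∀ j, ∃ (f : (F.obj j : Type) →ₗ[R] DirectSum ℕ (fun _ => (M : Type)))
        (g : DirectSum ℕ (fun _ => (M : Type)) →ₗ[R] (F.obj j : Type)), g ∘ₗ f = LinearMap.id) ∧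
      ∃ c : Limits.Cocone F, Nonempty (Limits.IsColimit c) ∧ Nonempty (c.pt ≅ N)) ∧
    ¬ ∃ (J : Type) (_ : SmallCategory J) (_ : IsFiltered J) (F : J ⥤ ModuleCat.{0} R),
      (∀ j, ∃ (n : ℕ) (f : (F.obj j : Type) →ₗ[R] DirectSum (Fin n) (fun _ => (M : Type)))
        (g : DirectSum (Fin n) (fun _ => (M : Type)) →ₗ[R] (F.obj j : Type)),
        g ∘ₗ f = LinearMap.id) ∧
      ∃ c : Limits.Cocone F, Nonempty (Limits.IsColimit c) ∧ Nonempty (c.pt ≅ N) := by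
  refine ⟨RR, inferInstance, ModuleCat.of RR WW, ModuleCat.of RR NN, is_lim, ?_⟩
  rintro ⟨J, _, _, G, hG, c, ⟨hc⟩, ⟨e⟩⟩
  refine not_lim G (fun j => ?_) c hc e
  obtain ⟨n, f, g, hfg⟩ := hG j
  exact (Phi.sum (fun _ => WW) fun _ => Phi_MM.prod Phi_Z0).retr f g hfg

end Pool.Agent.Results.MP_e6182f_al.OneModule
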